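import Pool.Agent.V11103.PathCover3

/-!
There is a constant `c > 1/2` such that for infinitely many `n` some `n`-point set in general
position in the plane needs at least `c n` noncrossing paths to cover its complete geometric
graph.
-/

namespace Pool.Agent.Results.MP_2ace6b_co.NeedsMoreThanHalf

open Pool.Agent.V11103.PathCover

/-- For infinitely many `n` there is a set `A` of `n` points in general position in the plane
with `p(A) ≥ c n`, for a constant `c > 1/2` independent of `n`. -/
theorem result : ∃ c : ℝ, 1 / 2 < c ∧
    {n : ℕ | ∃ A : Finset (ℝ × ℝ), A.card = n ∧ GeneralPosition A ∧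
      c * (n : ℝ) ≤ (pathCoverNumber A : ℝ)}.Infinite := by
  refine ⟨18 / 35, by norm_num, Set.infinite_of_forall_exists_gt fun N => ?_⟩
  obtain ⟨A, hc, hg, hA⟩ := exists_set (N + 1) (by omega)
  exact ⟨7 * (N + 1), ⟨A, hc, hg, hA⟩, by omega⟩

end Pool.Agent.Results.MP_2ace6b_co.NeedsMoreThanHalf
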